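import Pool.Agent.TH778.SA.Main

/-!
# Real and Aronszajn strongly surjective linear orders exist together

(1) There is a forcing notion which preserves cardinals and forces Martin's axiom for `ℵ₁` dense
sets (the Solovay–Tennenbaum theorem, proved in `Pool.Agent.W684.FM`).

(2) Martin's axiom for `ℵ₁` dense sets implies that there are an uncountable real strongly
surjective linear order and a strongly surjective Aronszajn line. The Aronszajn line is the set of
the leaves (attached to the nodes) of a coherent Aronszajn tree of finite-to-one functions modulo
finite, with rational values, in the lexicographic order.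

Here `MartinFor Om1` is Martin's axiom for preorders with underlying set `ω₁` and `ω₁`-indexed
families of dense sets, and `MartinHolds P Om1` is its literal translation into the forcing
language of `Pool.Agent.Helper669.Forcing`. The third part of the theorem says that `MartinFor Om1`
is equivalent to the usual form of Martin's axiom for `ℵ₁` dense sets.
-/

set_option autoImplicit false

namespace Pool.Agent.Results.MP_5db220_lc.BothKinds

open Cardinal Pool.Agent.Helper669.Forcing Pool.Agent.W684 Pool.Agent.W684.FM Pool.Agent.TH778.SA

/-- (1) Some preordered set `P` of forcing conditions forces that all cardinals are preserved, that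
`ω₁` is preserved and that Martin's axiom for `ℵ₁` dense sets holds. (2) If Martin's axiom for `ℵ₁`
dense sets holds then there are an uncountable real linear order which is strongly surjective and
an Aronszajn line which is strongly surjective. (3) The form of Martin's axiom in (1) and (2) is
equivalent to the usual one. -/
theorem result :
    (∃ (P : Type) (_ : Preorder P), Nonempty P ∧ ∀ p : P,
      p ∈ CardinalsPreserved.{0, 0} P ∧ p ∈ OmegaOnePreserved P ∧ p ∈ MartinHolds P Om1) ∧
    (MartinFor Om1 →
      (∃ (L : Type) (_ : LinearOrder L), Uncountable L ∧ IsReal L ∧ StronglySurjective L) ∧
      (∃ (L : Type) (_ : LinearOrder L), IsAronszajn L ∧ StronglySurjective L)) ∧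
    (MartinFor Om1 ↔ MartinAxiomAleph1) :=
  ⟨exists_forcing Om1, fun h => ⟨real (martinFor_om1_iff.1 h), LL, inferInstance, aronszajn,
    strongly (martinFor_om1_iff.1 h)⟩, martinFor_om1_iff⟩

end Pool.Agent.Results.MP_5db220_lc.BothKinds
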